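import Pool.Agent.Y262.EG.Stm

/-!
# Project EG, job GLOB1: the local constants define a function on the surface
-/

set_option autoImplicit false

open Set Filter Topology MeasureTheory
open scoped ContDiff

noncomputable section

namespace Pool.Agent.Y61.EG

open Pool.Agent.Y262.EG

section

variable {P : Type} {Ω : Set ℂ} {q : Y → P} {f : P → ℝ}

/-- `f` has the constant value `a` near `p` -/
def Lc (Ω : Set ℂ) (q : Y → P) (f : P → ℝ) (p : Y) (a : ℝ) : Prop :=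
  ∃ r : ℝ, 0 < r ∧ Metric.ball p r ⊆ YO Ω ∧
    ∀ᵐ y ∂(volume : Measure Y).restrict (Metric.ball p r), f (q y) = a

theorem Lc.anti {p : Y} {a r : ℝ} (hr : Metric.ball p r ⊆ YO Ω)
    (h : ∀ᵐ y ∂(volume : Measure Y).restrict (Metric.ball p r), f (q y) = a) {p' : Y} {r' : ℝ}
    (hs : Metric.ball p' r' ⊆ Metric.ball p r) : Metric.ball p' r' ⊆ YO Ω ∧
      ∀ᵐ y ∂(volume : Measure Y).restrict (Metric.ball p' r'), f (q y) = a :=
  ⟨hs.trans hr, ae_mono (Measure.restrict_mono hs le_rfl) h⟩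

theorem Lc.unique {p : Y} {a b : ℝ} (ha : Lc Ω q f p a) (hb : Lc Ω q f p b) : a = b := by
  obtain ⟨r, hr, h1, h2⟩ := ha
  obtain ⟨s, hs, h3, h4⟩ := hb
  have ht : 0 < min r s := lt_min hr hs
  have e1 := (Lc.anti h1 h2 (Metric.ball_subset_ball (min_le_left r s))).2
  have e2 := (Lc.anti h3 h4 (Metric.ball_subset_ball (min_le_right r s))).2
  have hne : (ae ((volume : Measure Y).restrict (Metric.ball p (min r s)))).NeBot := by
    rw [ae_neBot, Ne, Measure.restrict_eq_zero]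
    exact (Metric.measure_ball_pos _ _ ht).ne'
  obtain ⟨y, h5, h6⟩ := (e1.and e2).exists
  rw [← h5, ← h6]

theorem Lc.near {p : Y} {a : ℝ} (ha : Lc Ω q f p a) : ∃ r : ℝ, 0 < r ∧
    Metric.ball p r ⊆ YO Ω ∧ (∀ᵐ y ∂(volume : Measure Y).restrict (Metric.ball p r), f (q y) = a) ∧
      ∀ p' ∈ Metric.ball p r, Lc Ω q f p' a := by
  obtain ⟨r, hr, h1, h2⟩ := ha
  refine ⟨r, hr, h1, h2, fun p' hp' => ?_⟩
  rw [Metric.mem_ball] at hp'
  exact ⟨r - dist p' p, by linarith, Lc.anti h1 h2 (Metric.ball_subset_ball' (by linarith))⟩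

theorem Lc.transfer [TopologicalSpace P] (hO : IsOpen Ω) (hc : ContinuousOn q (YO Ω))
    (ho : ∀ O : Set Y, IsOpen O → O ⊆ YO Ω → IsOpen (q '' O)) {p p' : Y} (hp' : p' ∈ YO Ω)
    (hqp : q p = q p') {s : ℝ} (hs : 0 < s) (hsO : Metric.ball p' s ⊆ YO Ω)
    (hinj : InjOn q (Metric.ball p' s)) {U : Set Y} {A : Y → Y} (hU : IsOpen U) (hpU : p ∈ U)
    (hA : ContDiffOn ℝ ∞ A U) (hAp : A p = p') (hAq : ∀ y ∈ U, q (A y) = q y) {a : ℝ}
    (ha : Lc Ω q f p a) : Lc Ω q f p' a := by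
  obtain ⟨r, hr, h1, h2⟩ := ha
  have hAc : ContinuousAt A p := hA.continuousOn.continuousAt (hU.mem_nhds hpU)
  have hV0 : U ∩ Metric.ball p r ∩ A ⁻¹' Metric.ball p' s ∈ 𝓝 p := by
    refine inter_mem (inter_mem (hU.mem_nhds hpU) (Metric.ball_mem_nhds p hr)) ?_
    apply hAc
    rw [hAp]
    exact Metric.ball_mem_nhds p' hs
  obtain ⟨ρ, hρ, hV⟩ := Metric.mem_nhds_iff.1 hV0
  have hVO : Metric.ball p ρ ⊆ YO Ω := fun y hy => h1 (hV hy).1.2
  have hqV := ho _ Metric.isOpen_ball hVO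
  have hYO : IsOpen (YO Ω) := hO.preimage continuous_fst
  have hqc : ContinuousAt q p' := hc.continuousAt (hYO.mem_nhds hp')
  have hW : q ⁻¹' (q '' Metric.ball p ρ) ∩ Metric.ball p' s ∈ 𝓝 p' := by
    refine inter_mem ?_ (Metric.ball_mem_nhds p' hs)
    apply hqc
    apply hqV.mem_nhds
    exact ⟨p, Metric.mem_ball_self hρ, hqp⟩
  obtain ⟨σ, hσ, hσV⟩ := Metric.mem_nhds_iff.1 hW
  refine ⟨σ, hσ, fun y hy => hsO (hσV hy).2, ?_⟩
  rw [ae_restrict_iff' Metric.isOpen_ball.measurableSet, ae_iff] at h2 ⊢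
  have : (volume : Measure Y).IsAddHaarMeasure :=
    inferInstanceAs ((volume : Measure ℂ).prod (volume : Measure ℝ)).IsAddHaarMeasure
  have himg : volume (A '' ({y | ¬(y ∈ Metric.ball p r → f (q y) = a)} ∩ U)) = 0 := by
    apply addHaar_image_eq_zero_of_differentiableOn_of_addHaar_eq_zero
    · exact (hA.differentiableOn (by simp)).mono inter_subset_right
    · exact measure_mono_null inter_subset_left h2
  refine measure_mono_null ?_ himg
  intro y' hy'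
  rw [Set.mem_ofPred_eq, Classical.not_imp] at hy'
  obtain ⟨hy1, hy2⟩ := hy'
  obtain ⟨⟨y, hy, hyq⟩, hys⟩ := hσV hy1
  have hyV := hV hy
  have e : A y = y' := hinj hyV.2 hys (by rw [hAq y hyV.1.1, hyq])
  refine ⟨y, ⟨?_, hyV.1.1⟩, e⟩
  rw [Set.mem_ofPred_eq, Classical.not_imp]
  refine ⟨hyV.1.2, ?_⟩
  rw [hyq]
  exact hy2

end

open Classical in
theorem glob1 (h1 : StFrame) (h2 : StEt) : StGlob1 := by
  intro M P _ _ _ _ Ω φ pr q hUT f hf
  obtain ⟨i1, -, i3⟩ := h2 M P Ω φ pr q hUT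
  have hYO : IsOpen (YO Ω) := hUT.opn.preimage continuous_fst
  have htr : ∀ p ∈ YO Ω, ∀ p' ∈ YO Ω, q p = q p' → ∀ a, Lc Ω q f p a → Lc Ω q f p' a := by
    intro p hp p' hp' hqp a ha
    obtain ⟨s, hs, hsO, hinj⟩ := i1 p' hp'
    obtain ⟨U, A, hU, hpU, -, hA, hAp, hAy⟩ := i3 p hp p' hp' hqp
    exact Lc.transfer hUT.opn hUT.contq hUT.opnq hp' hqp hs hsO hinj hU hpU hA hAp
      (fun y hy => (hAy y hy).2.1) ha
  have hcurv : ContinuousOn (curv φ) Ω := (h1 Ω φ hUT.opn hUT.smooth).2.2.1.continuousOn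
  have hex : ∀ p ∈ YO Ω, curv φ p.1 < 0 → ∃ a, Lc Ω q f p a := fun p hp hpc => by
    obtain ⟨r, a, hr, hb, hae⟩ := hf p hp hpc
    exact ⟨a, r, hr, hb, hae⟩
  -- the constant does not depend on the direction
  have hdir : ∀ z ∈ Ω, curv φ z < 0 → ∀ (θ θ' a : ℝ), Lc Ω q f (z, θ) a → Lc Ω q f (z, θ') a := by
    intro z hz hzc
    have hch : ∀ θ : ℝ, ∃ a, Lc Ω q f (z, θ) a := fun θ => hex (z, θ) hz hzc
    choose al hal using hch
    have hlc : IsLocallyConstant al := by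
      rw [IsLocallyConstant.iff_eventually_eq]
      intro θ
      obtain ⟨r, hr, -, -, hnear⟩ := (hal θ).near
      filter_upwards [Metric.ball_mem_nhds θ hr] with θ' hθ'
      refine Lc.unique (hal θ') (hnear (z, θ') ?_)
      rw [Metric.mem_ball, Prod.dist_eq]
      simpa using hθ'
    intro θ θ' a ha
    have e := hlc.apply_eq_of_preconnectedSpace θ θ'
    rw [Lc.unique ha (hal θ), e]
    exact hal θ'
  have hdeck : ∀ z ∈ Ω, ∀ w ∈ Ω, curv φ z < 0 → curv φ w < 0 → pr z = pr w → ∀ (θ θ' a : ℝ),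
      Lc Ω q f (z, θ) a → Lc Ω q f (w, θ') a := by
    intro z hz w hw hzc hwc hzw θ θ' a ha
    obtain ⟨θ'', hg⟩ := hUT.deck z hz w hw hzw θ
    have hq : q (z, θ) = q (w, θ'') := (hUT.rel (z, θ) hz (w, θ'') hw).2 hg
    exact hdir w hw hwc θ'' θ' a (htr (z, θ) hz (w, θ'') hw hq a ha)
  -- the function on the surface
  have hM : ∀ x : M, ∃ a : ℝ, ∀ p ∈ YO Ω, curv φ p.1 < 0 → pr p.1 = x → Lc Ω q f p a := by
    intro x
    by_cases hx : ∃ z ∈ Ω, curv φ z < 0 ∧ pr z = x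
    · obtain ⟨z, hz, hzc, hzx⟩ := hx
      obtain ⟨a, ha⟩ := hex (z, 0) hz hzc
      refine ⟨a, fun p hp hpc hpx => ?_⟩
      exact hdeck z hz p.1 hp hzc hpc (hzx.trans hpx.symm) 0 p.2 a ha
    · exact ⟨0, fun p hp hpc hpx => absurd ⟨p.1, hp, hpc, hpx⟩ hx⟩
  choose a ha using hM
  refine ⟨a, fun p0 hp0 hp0c => ?_⟩
  obtain ⟨r, hr, hrO, hae, hnear⟩ := (ha (pr p0.1) p0 hp0 hp0c rfl).near
  have hcc : ContinuousAt (fun p : Y => curv φ p.1) p0 :=
    (hcurv.continuousAt (hUT.opn.mem_nhds hp0)).comp continuousAt_fst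
  obtain ⟨ρ, hρ, hneg⟩ := Metric.mem_nhds_iff.1 (hcc.eventually (gt_mem_nhds hp0c))
  have hsub : Metric.ball p0 (min r ρ) ⊆ Metric.ball p0 r :=
    Metric.ball_subset_ball (min_le_left _ _)
  obtain ⟨k1, k2⟩ := Lc.anti hrO hae hsub
  refine ⟨min r ρ, lt_min hr hρ, k1, fun p hp => ?_, k2⟩
  have hpc : curv φ p.1 < 0 := hneg (Metric.ball_subset_ball (min_le_right _ _) hp)
  exact ⟨hpc, Lc.unique (ha (pr p.1) p (k1 hp) hpc rfl) (hnear p (hsub hp))⟩

end Pool.Agent.Y61.EG
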