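import Pool.Agent.Y262.EG.Stm

/-!
# Project EG, job L2: the second moments of the derivatives of the slope
-/

set_option autoImplicit false

open Set Filter Topology MeasureTheory
open scoped ContDiff

noncomputable section

namespace Pool.Agent.Y61.EG

open Pool.Agent.Y262.EG

theorem sq_rpow_aux {Z : ℝ} (hZ : 0 ≤ Z) : (Z ^ (1 / 40 : ℝ)) ^ 2 = Z ^ (1 / 20 : ℝ) := by
  rw [← Real.rpow_natCast, ← Real.rpow_mul hZ]
  norm_num

theorem sum_sq_aux {a b z A B : ℝ} (ha : |a| ≤ A * z) (hb : |b| ≤ B * z) :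
    a ^ 2 + b ^ 2 ≤ (A ^ 2 + B ^ 2) * z ^ 2 := by
  have h1 : a ^ 2 ≤ (A * z) ^ 2 := by
    rw [← sq_abs a]
    exact pow_le_pow_left₀ (abs_nonneg a) ha 2
  have h2 : b ^ 2 ≤ (B * z) ^ 2 := by
    rw [← sq_abs b]
    exact pow_le_pow_left₀ (abs_nonneg b) hb 2
  nlinarith

theorem l2 (h1 : StJac1) (h2 : StJac2) (h3 : StJac3) (h4 : StTail) : StL2 := by
  intro P _ _ _ _ m Fl Ac dX dH dV k c c1 s s1 hP
  have := hP.fin
  obtain ⟨K0, hK0⟩ : ∃ K0 : ℝ, ∀ x, k x ≤ K0 := by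
    obtain ⟨C, hC⟩ := isCompact_univ.exists_bound_of_continuousOn (hP.ct k hP.kA).continuousOn
    exact ⟨C, fun x => (le_abs_self _).trans (by simpa using hC x (mem_univ x))⟩
  obtain ⟨C0, hC0⟩ := hP.kH
  obtain ⟨C1, hC1⟩ : ∃ C1 : ℝ, C1 = |C0| := ⟨_, rfl⟩
  have hC1' : 0 ≤ C1 := by rw [hC1]; exact abs_nonneg _
  have hkH : ∀ x, |dH k x| ≤ C1 * (k x) ^ (39 / 40 : ℝ) := fun x => by
    refine (hC0 x).trans ?_
    rw [hC1]
    exact mul_le_mul_of_nonneg_right (le_abs_self _) (Real.rpow_nonneg (hP.k0 x) _)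
  obtain ⟨⟨C2, hC2⟩, -⟩ := h4 P m Fl Ac dX dH dV k c c1 s s1 hP
  obtain ⟨C3, hC3⟩ : ∃ C3 : ℝ, C3 = (3 * C1 * (2 + K0 / 2)) ^ 2 + (2 * C1) ^ 2 := ⟨_, rfl⟩
  have hC3' : 0 ≤ C3 := by rw [hC3]; positivity
  refine ⟨max (1 + K0 / 2) (C3 * max C2 0), ?_⟩
  intro T hT
  have hT0 : 0 < T := by linarith
  have key : ∀ x, uu c s T x ≤ 0 ∧ -uu c s T x ≤ 1 + K0 / 2 ∧
      (dH (uu c s T) x) ^ 2 + (dV (uu c s T) x) ^ 2 ≤
        C3 * (∫ t in (0 : ℝ)..T, (1 + t) * yy c s T t x) ^ (1 / 20 : ℝ) := by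
    intro x
    have hj := hP.jac x
    have hk0 : ∀ t, 0 ≤ k (Fl t x) := fun t => hP.k0 _
    have hu : uu c s T x = -(c T x / s T x) := rfl
    have hy : ∀ t, yy c s T t x = c t x + uu c s T x * s t x := fun t => rfl
    obtain ⟨-, -, -, e1⟩ := h1 _ _ _ _ _ hj hk0
    obtain ⟨a1, a2, -, -, -, -, -⟩ := e1 T (uu c s T x) (fun t => yy c s T t x)
      (fun t => c1 t x + uu c s T x * s1 t x) hT0 hu hy (fun t => rfl)
    obtain ⟨b1, -, -, -⟩ := h2 _ _ _ _ _ hj hk0 T (uu c s T x) (fun t => yy c s T t x)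
      (fun t => c1 t x + uu c s T x * s1 t x) hT0 hu hy (fun t => rfl)
    have hu0 : uu c s T x ≤ 0 := a1.trans (by
      rw [neg_nonpos]
      positivity)
    have hu1 : -uu c s T x ≤ 1 + K0 / 2 := b1 K0 hT (fun t _ => hK0 _)
    have hZ : 0 ≤ ∫ t in (0 : ℝ)..T, (1 + t) * yy c s T t x := by
      apply intervalIntegral.integral_nonneg hT0.le
      intro t ht
      exact mul_nonneg (by linarith [ht.1]) (a2 t ht).1
    have hflx : Continuous fun t => Fl t x := hP.flc.comp (Continuous.prodMk_left x)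
    have hd : Continuous fun t => dH k (Fl t x) := (hP.dvH.ct k hP.kA).comp hflx
    obtain ⟨d1, d2⟩ := h3 _ _ _ _ _ hj hk0 T (uu c s T x) (fun t => yy c s T t x) hT0 hu hy
      (fun t => dH k (Fl t x)) C1 hd hC1' (fun t => hkH _)
    obtain ⟨g1, g2⟩ := (hP.uA T hT0.ne').2 x
    have f1 : |dV (uu c s T) x| ≤ 2 * C1 *
        (∫ t in (0 : ℝ)..T, (1 + t) * yy c s T t x) ^ (1 / 40 : ℝ) := by
      rw [g1, abs_neg]
      exact d1
    have f2 : |dH (uu c s T) x| ≤ 3 * C1 * (2 + K0 / 2) *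
        (∫ t in (0 : ℝ)..T, (1 + t) * yy c s T t x) ^ (1 / 40 : ℝ) := by
      rw [g2, abs_neg]
      refine d2.trans ?_
      apply mul_le_mul_of_nonneg_right _ (Real.rpow_nonneg hZ _)
      apply mul_le_mul_of_nonneg_left _ (by positivity)
      linarith
    refine ⟨hu0, hu1, ?_⟩
    have f3 := sum_sq_aux f2 f1
    rw [sq_rpow_aux hZ, ← hC3] at f3
    exact f3
  refine ⟨fun x => ?_, ?_⟩
  · obtain ⟨a1, a2, -⟩ := key x
    refine le_trans ?_ (le_max_left _ _)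
    rw [abs_of_nonpos a1]
    exact a2
  · refine le_trans ?_ (le_max_right _ _)
    have hcont : Continuous fun x => (dH (uu c s T) x) ^ 2 + (dV (uu c s T) x) ^ 2 :=
      ((hP.dvH.ct _ (hP.uA T hT0.ne').1).pow 2).add ((hP.dvV.ct _ (hP.uA T hT0.ne').1).pow 2)
    rw [integral_eq_lintegral_of_nonneg_ae (Eventually.of_forall fun x => by positivity)
      hcont.aestronglyMeasurable]
    have hle : ∫⁻ x, ENNReal.ofReal ((dH (uu c s T) x) ^ 2 + (dV (uu c s T) x) ^ 2) ∂m ≤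
        ENNReal.ofReal (C3 * max C2 0) := by
      calc _ ≤ ∫⁻ x, ENNReal.ofReal C3 * ENNReal.ofReal
            ((∫ t in (0 : ℝ)..T, (1 + t) * yy c s T t x) ^ (1 / 20 : ℝ)) ∂m := by
            refine lintegral_mono fun x => ?_
            rw [← ENNReal.ofReal_mul hC3']
            exact ENNReal.ofReal_le_ofReal (key x).2.2
        _ = ENNReal.ofReal C3 * ∫⁻ x, ENNReal.ofReal
            ((∫ t in (0 : ℝ)..T, (1 + t) * yy c s T t x) ^ (1 / 20 : ℝ)) ∂m :=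
            lintegral_const_mul' _ _ ENNReal.ofReal_ne_top
        _ ≤ ENNReal.ofReal C3 * ENNReal.ofReal (max C2 0) := by
            gcongr
            exact (hC2 T hT).trans (ENNReal.ofReal_le_ofReal (le_max_left _ _))
        _ = _ := (ENNReal.ofReal_mul hC3').symm
    have := ENNReal.toReal_mono ENNReal.ofReal_ne_top hle
    rwa [ENNReal.toReal_ofReal (by positivity)] at this

end Pool.Agent.Y61.EG
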